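import Pool.Agent.N414.LR.Stm

/-!
# Project LR: UNI, orthonormality is inherited by the translations
-/

set_option autoImplicit false
set_option linter.unusedSectionVars false

namespace Pool.Agent.N414.LR.UNI

open Pool.Agent.H494R3.GT Pool.Agent.N557.QW Pool.Agent.N414.LR Filter Topology

noncomputable section

variable {G Λ : Type} [Group G] [Group Λ]

/-- The linear span of the unitaries `v g`. -/
def V (v : G →* unitary (Op Λ)) : Submodule ℂ (Op Λ) :=
  Submodule.span ℂ (Set.range fun g => (v g : Op Λ))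

lemma V_mem (v : G →* unitary (Op Λ)) (g : G) : (v g : Op Λ) ∈ V v :=
  Submodule.subset_span ⟨g, rfl⟩

lemma V_star (v : G →* unitary (Op Λ)) {x : Op Λ} (hx : x ∈ V v) : star x ∈ V v := by
  unfold V at hx
  induction hx using Submodule.span_induction with
  | mem x h =>
    obtain ⟨g, rfl⟩ := h
    have : star (v g : Op Λ) = (v g⁻¹ : Op Λ) := by
      rw [map_inv, ← Unitary.star_eq_inv]; rfl
    change star (v g : Op Λ) ∈ _
    rw [this]
    exact V_mem v _
  | zero => rw [star_zero]; exact Submodule.zero_mem _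
  | add x y _ _ hx hy => rw [star_add]; exact Submodule.add_mem _ hx hy
  | smul c x _ hx => rw [star_smul]; exact Submodule.smul_mem _ _ hx

lemma V_mul (v : G →* unitary (Op Λ)) {x y : Op Λ} (hx : x ∈ V v) (hy : y ∈ V v) :
    x * y ∈ V v := by
  unfold V at hx
  induction hx using Submodule.span_induction with
  | mem x h =>
    obtain ⟨g, rfl⟩ := h
    unfold V at hy
    induction hy using Submodule.span_induction with
    | mem y h =>
      obtain ⟨k, rfl⟩ := h
      have : (v g : Op Λ) * (v k : Op Λ) = (v (g * k) : Op Λ) := by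
        rw [map_mul]; rfl
      change (v g : Op Λ) * (v k : Op Λ) ∈ _
      rw [this]
      exact V_mem v _
    | zero => rw [mul_zero]; exact Submodule.zero_mem _
    | add x y _ _ hx hy => rw [mul_add]; exact Submodule.add_mem _ hx hy
    | smul c x _ hx => rw [mul_smul_comm]; exact Submodule.smul_mem _ _ hx
  | zero => rw [zero_mul]; exact Submodule.zero_mem _
  | add x y _ _ hx hy => rw [add_mul]; exact Submodule.add_mem _ hx hy
  | smul c x _ hx => rw [smul_mul_assoc]; exact Submodule.smul_mem _ _ hx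

lemma V_LG (v : G →* unitary (Op Λ)) (hv : ∀ g, (v g : Op Λ) ∈ LG Λ) {x : Op Λ}
    (hx : x ∈ V v) : x ∈ LG Λ := by
  unfold V at hx
  induction hx using Submodule.span_induction with
  | mem x h =>
    obtain ⟨g, rfl⟩ := h
    exact hv g
  | zero => exact mem_LG.2 fun g => by rw [mul_zero, zero_mul]
  | add x y _ _ hx hy =>
    exact mem_LG.2 fun g => by rw [mul_add, add_mul, mem_LG.1 hx, mem_LG.1 hy]
  | smul c x _ hx =>
    exact mem_LG.2 fun g => by rw [mul_smul_comm, smul_mul_assoc, mem_LG.1 hx]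

lemma inner_dl_one : inner ℂ (dl (1 : Λ)) (dl (1 : Λ)) = (1 : ℂ) := by
  rw [inner_dl, dl_apply_self]

lemma inner_eq (v : G →* unitary (Op Λ)) {ζ : L2 Λ} (hζ : ‖ζ‖ = 1)
    (h0 : ∀ g, g ≠ 1 → cf (v g : Op Λ) 1 = 0)
    (h1 : ∀ g, g ≠ 1 → inner ℂ ζ ((v g : Op Λ) ζ) = 0) {x : Op Λ} (hx : x ∈ V v) :
    inner ℂ ζ (x ζ) = inner ℂ (dl (1 : Λ)) (x (dl 1)) := by
  unfold V at hx
  induction hx using Submodule.span_induction with
  | mem x h =>
    obtain ⟨g, rfl⟩ := h
    change inner ℂ ζ ((v g : Op Λ) ζ) = inner ℂ (dl (1 : Λ)) ((v g : Op Λ) (dl 1))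
    by_cases hg : g = 1
    · subst hg
      have h1 : (v 1 : Op Λ) = 1 := by rw [map_one]; rfl
      rw [h1]
      change inner ℂ ζ ζ = inner ℂ (dl (1 : Λ)) (dl (1 : Λ))
      rw [inner_dl_one, inner_self_eq_norm_sq_to_K, hζ]
      simp
    · rw [h1 g hg]
      exact (h0 g hg).symm
  | zero =>
    change inner ℂ ζ (0 : L2 Λ) = inner ℂ (dl (1 : Λ)) (0 : L2 Λ)
    rw [inner_zero_right, inner_zero_right]
  | add x y _ _ hx hy =>
    change inner ℂ ζ (x ζ + y ζ) = inner ℂ (dl (1 : Λ)) (x (dl 1) + y (dl 1))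
    rw [inner_add_right, inner_add_right, hx, hy]
  | smul c x _ hx =>
    change inner ℂ ζ (c • x ζ) = inner ℂ (dl (1 : Λ)) (c • x (dl 1))
    rw [inner_smul_right, inner_smul_right, hx]

lemma norm_sq_eq (x : Op Λ) (e : L2 Λ) :
    inner ℂ e ((star x * x) e) = ((‖x e‖ ^ 2 : ℝ) : ℂ) := by
  change inner ℂ e (star x (x e)) = _
  rw [ContinuousLinearMap.star_eq_adjoint, ContinuousLinearMap.adjoint_inner_right,
    inner_self_eq_norm_sq_to_K]
  norm_cast

lemma norm_eq (v : G →* unitary (Op Λ)) {ζ : L2 Λ} (hζ : ‖ζ‖ = 1)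
    (h0 : ∀ g, g ≠ 1 → cf (v g : Op Λ) 1 = 0)
    (h1 : ∀ g, g ≠ 1 → inner ℂ ζ ((v g : Op Λ) ζ) = 0) {x : Op Λ} (hx : x ∈ V v) :
    ‖x ζ‖ = ‖x (dl 1)‖ := by
  have h := inner_eq v hζ h0 h1 (V_mul v (V_star v hx) hx)
  rw [norm_sq_eq, norm_sq_eq] at h
  have h' : ‖x ζ‖ ^ 2 = ‖x (dl 1)‖ ^ 2 := by exact_mod_cast h
  exact (pow_left_inj₀ (norm_nonneg _) (norm_nonneg _) (by norm_num)).1 h'

lemma norm_star {z : Op Λ} (hz : z ∈ LG Λ) : ‖star z (dl 1)‖ = ‖z (dl 1)‖ := by
  have ht := (Pool.Agent.N169.QWP.t_com Λ).2.tracial z hz (star z) (star_mem hz)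
  have e1 := norm_sq_eq z (dl 1)
  have e2 := norm_sq_eq (star z) (dl 1)
  rw [star_star] at e2
  have h : ((‖star z (dl 1)‖ ^ 2 : ℝ) : ℂ) = ((‖z (dl 1)‖ ^ 2 : ℝ) : ℂ) := by
    rw [← e1, ← e2]
    exact ht
  have h' : ‖star z (dl 1)‖ ^ 2 = ‖z (dl 1)‖ ^ 2 := by exact_mod_cast h
  exact (pow_left_inj₀ (norm_nonneg _) (norm_nonneg _) (by norm_num)).1 h'

lemma rgt_norm (g : Λ) (x : L2 Λ) : ‖rgt g x‖ = ‖x‖ := by
  have h := norm_sq_eq (rgt g) x
  rw [star_rgt] at h
  have h1 : rgt g⁻¹ * rgt g = (1 : Op Λ) := op_ext fun s => by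
    rw [mul_ap, rgt_dl, rgt_dl, mul_inv_cancel_right]; rfl
  rw [h1] at h
  have h2 : inner ℂ x ((1 : Op Λ) x) = ((‖x‖ ^ 2 : ℝ) : ℂ) := by
    change inner ℂ x x = _
    rw [inner_self_eq_norm_sq_to_K]
    norm_cast
  rw [h2] at h
  have h' : ‖x‖ ^ 2 = ‖rgt g x‖ ^ 2 := by exact_mod_cast h
  exact ((pow_left_inj₀ (norm_nonneg _) (norm_nonneg _) (by norm_num)).1 h').symm

lemma coord_le {z : Op Λ} (hz : z ∈ LG Λ) {ζ : L2 Λ} (hζ : ‖ζ‖ = 1) (y : Λ) :
    ‖(z ζ) y‖ ≤ ‖z (dl 1)‖ := by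
  have e1 : (z ζ) y = inner ℂ (star z (dl y)) ζ := by
    rw [← inner_dl, ContinuousLinearMap.star_eq_adjoint, ContinuousLinearMap.adjoint_inner_left]
  have e2 : star z (dl y) = rgt y (star z (dl 1)) := by
    have h := mem_LG.1 (star_mem hz) y
    have := congrArg (fun w : Op Λ => w (dl 1)) h
    simp only [mul_ap, rgt_dl, one_mul] at this
    exact this.symm
  rw [e1]
  refine (norm_inner_le_norm _ _).trans ?_
  rw [hζ, mul_one, e2, rgt_norm, norm_star hz]

theorem main : Pool.Agent.N414.LR.S_UNI := by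
  intro G Λ _ _ v ζ hζ hv h0 hd h1 h hh
  -- density
  have hmem : dl h ∈ closure ((Submodule.span ℂ
      (Set.range fun g => (v g : Op Λ) (dl 1)) : Submodule ℂ (L2 Λ)) : Set (L2 Λ)) := by
    rw [← Submodule.topologicalClosure_coe, hd]
    trivial
  obtain ⟨y, hy, hlim⟩ := mem_closure_iff_seq_limit.1 hmem
  have hx : ∀ n, ∃ x : Op Λ, x ∈ V v ∧ x (dl 1) = y n := by
    intro n
    let ev : Op Λ →ₗ[ℂ] L2 Λ :=
      { toFun := fun x => x (dl 1)
        map_add' := fun _ _ => rfl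
        map_smul' := fun _ _ => rfl }
    have e : (Submodule.span ℂ (Set.range fun g => (v g : Op Λ) (dl 1)) : Submodule ℂ (L2 Λ)) =
        (V v).map ev := by
      rw [V, Submodule.map_span, ← Set.range_comp]
      rfl
    have := hy n
    rw [e] at this
    obtain ⟨x, hx, hxy⟩ := this
    exact ⟨x, hx, hxy⟩
  choose x hxV hxy using hx
  -- Cauchy
  have hc : CauchySeq fun n => x n ζ := by
    rw [Metric.cauchySeq_iff]
    intro ε hε
    obtain ⟨N, hN⟩ := Metric.cauchySeq_iff.1 hlim.cauchySeq ε hε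
    refine ⟨N, fun m hm n hn => ?_⟩
    have h2 := hN m hm n hn
    rw [dist_eq_norm] at h2 ⊢
    have h3 := norm_eq v hζ h0 h1 (Submodule.sub_mem _ (hxV m) (hxV n))
    change ‖x m ζ - x n ζ‖ = ‖x m (dl 1) - x n (dl 1)‖ at h3
    rw [hxy, hxy] at h3
    rw [h3]
    exact h2
  obtain ⟨η, hη⟩ := cauchySeq_tendsto_of_complete hc
  have hη' : η = lam h ζ := by
    apply vec_ext
    intro t
    have l1 : Tendsto (fun n => (x n ζ) t) atTop (𝓝 (η t)) := by
      have : Tendsto (fun n => inner ℂ (dl t) (x n ζ)) atTop (𝓝 (inner ℂ (dl t) η)) :=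
        Tendsto.inner tendsto_const_nhds hη
      simpa only [inner_dl] using this
    have l2 : Tendsto (fun n => (x n ζ) t) atTop (𝓝 ((lam h ζ) t)) := by
      rw [tendsto_iff_norm_sub_tendsto_zero]
      have l3 : Tendsto (fun n => ‖y n - dl h‖) atTop (𝓝 0) :=
        tendsto_iff_norm_sub_tendsto_zero.1 hlim
      refine squeeze_zero (fun _ => norm_nonneg _) (fun n => ?_) l3
      have hz : x n - lam h ∈ LG Λ := by
        have a1 := V_LG v hv (hxV n)
        have a2 := lam_mem h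
        exact mem_LG.2 fun g => by rw [mul_sub, sub_mul, mem_LG.1 a1, mem_LG.1 a2]
      have := coord_le hz hζ t
      have e1 : ((x n - lam h) ζ) t = (x n ζ) t - (lam h ζ) t := rfl
      have e2 : (x n - lam h) (dl 1) = y n - dl h := by
        change x n (dl 1) - lam h (dl 1) = _
        rw [hxy, lam_dl, mul_one]
      rw [e1, e2] at this
      exact this
    exact tendsto_nhds_unique l1 l2
  rw [← hη']
  have l1 : Tendsto (fun n => inner ℂ ζ (x n ζ)) atTop (𝓝 (inner ℂ ζ η)) :=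
    Tendsto.inner tendsto_const_nhds hη
  have l2 : Tendsto (fun n => inner ℂ ζ (x n ζ)) atTop (𝓝 (inner ℂ (dl (1 : Λ)) (dl h))) := by
    have e : (fun n => inner ℂ ζ (x n ζ)) = fun n => inner ℂ (dl (1 : Λ)) (y n) := by
      funext n
      rw [inner_eq v hζ h0 h1 (hxV n), hxy]
    rw [e]
    exact Tendsto.inner tendsto_const_nhds hlim
  rw [tendsto_nhds_unique l1 l2, inner_dl, dl_apply_ne (Ne.symm hh)]

end

end Pool.Agent.N414.LR.UNI
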